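import Mathlib

set_option autoImplicit false

namespace Pool.Agent.Results.MP_78a590_co.Order4

open Matrix Finset

def Hadamard {n : ℕ} (H : Matrix (Fin n) (Fin n) ℤ) : Prop :=
  (∀ i j, H i j = 1 ∨ H i j = -1) ∧ H * Hᵀ = (n : ℤ) • (1 : Matrix (Fin n) (Fin n) ℤ)

def Trade {n : ℕ} (H : Matrix (Fin n) (Fin n) ℤ) (T : Finset (Fin n × Fin n)) : Prop :=
  ∃ H', Hadamard H' ∧ H' ≠ H ∧ ∀ i j, H' i j ≠ H i j ↔ (i, j) ∈ T

/-- `T` is the symmetric difference of a family of rectangular trades: a position lies in `T`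
exactly when it lies in an odd number of them -/
def Combination {n : ℕ} (H : Matrix (Fin n) (Fin n) ℤ) (T : Finset (Fin n × Fin n)) : Prop :=
  ∃ F : Finset (Finset (Fin n × Fin n)), (∀ R ∈ F, Trade H R ∧ ∃ A B : Finset (Fin n), R = A ×ˢ B) ∧
    ∀ p, p ∈ T ↔ Odd (F.filter (p ∈ ·)).card

def H4 : Matrix (Fin 4) (Fin 4) ℤ := !![1, 1, 1, 1; 1, -1, 1, -1; 1, 1, -1, -1; 1, -1, -1, 1]

def K4 : Matrix (Fin 4) (Fin 4) ℤ := !![1, 1, 1, 1; 1, 1, -1, -1; 1, -1, -1, 1; 1, -1, 1, -1]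

def P : Finset (Fin 4 × Fin 4) := {(0, 1), (0, 2), (1, 0), (1, 1), (2, 0), (2, 2)}

def fl (R : Finset (Fin 4 × Fin 4)) : Matrix (Fin 4) (Fin 4) ℤ :=
  fun i j => if (i, j) ∈ R then - H4 i j else H4 i j

lemma key : ∀ A B : Finset (Fin 4),
    (∀ i j, ∑ k, fl (A ×ˢ B) i k * fl (A ×ˢ B) j k = if i = j then 4 else 0) →
    Even (P.filter (· ∈ A ×ˢ B)).card := by decide +kernel

lemma h4 : Hadamard H4 := ⟨by decide, by decide⟩

/-- A trade that is no symmetric difference of rectangular trades. -/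
theorem result : ∃ (n : ℕ) (H : Matrix (Fin n) (Fin n) ℤ) (T : Finset (Fin n × Fin n)),
    Hadamard H ∧ Trade H T ∧ ¬ Combination H T := by
  refine ⟨4, H4, {(1, 1), (1, 2), (2, 1), (2, 3), (3, 2), (3, 3)}, h4,
    ⟨K4, ⟨by decide, by decide⟩, by decide, by decide⟩, ?_⟩
  rintro ⟨F, h1, h2⟩
  have e1 : Even (∑ R ∈ F, (P.filter (· ∈ R)).card) := even_sum _ fun R hR => by
    obtain ⟨⟨H', ⟨a, b⟩, -, c⟩, A, B, rfl⟩ := h1 R hR
    have : H' = fl (A ×ˢ B) := by
      ext i j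
      have := c i j
      have := a i j
      have := h4.1 i j
      unfold fl
      split_ifs with h <;> simp only [h, iff_true, iff_false, not_not] at * <;> omega
    subst this
    refine key A B fun i j => ?_
    have := congrFun (congrFun b i) j
    simpa [mul_apply, one_apply] using this
  have e2 : ∑ R ∈ F, (P.filter (· ∈ R)).card = ∑ p ∈ P, (F.filter (p ∈ ·)).card := by
    simp only [card_filter]
    exact sum_comm
  rw [e2, even_sum_iff_even_card_odd] at e1
  simp only [← h2] at e1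
  exact absurd e1 (by decide)

end Pool.Agent.Results.MP_78a590_co.Order4
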